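import Pool.Agent.H442.QFam
import Pool.Agent.H442.Fin5
set_option autoImplicit false

/-!
Independent classes in the integral part of `K_2` of curves over the rational numbers which are not
hyperelliptic.

Let `P` be a product of cyclotomic polynomials, of degree `N ≥ 3`. For monic polynomials `A`, `D`
of degrees `n > p ≥ 1` consider the curve `D(x) P(z) = A(x) z`, that is `P(z) / z = A(x) / D(x)`, a
covering of degree `N` of the `x`-line and of degree `n` of the `z`-line. For `r p < n` the curves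
of this form over the rational numbers which are geometrically irreducible and have `r` classes in
the integral part of `K_2` with independent regulators are Zariski dense in the space of all pairs
`(A, D)`.

The members are, up to translations of `x`, `D = ∏_{l ≤ p} (x - β_l)`, `β_l` different prime
numbers, and `A = x ∏_{k ≤ r} R_k ∏_i (x - λ_i)` with the monic polynomials `R_k ≡ x^{j_k} mod D`
of degree `p`, with large different exponents `j_k`; the classes are the symbols
`{z, R_k(x) / x^{j_k}}`.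
-/

namespace Pool.Agent.Results.MP_743d1e_nt.EveryGonality

open Polynomial

open Pool.Agent.TH826.MK (KQ Unramified Torus)

open Pool.Agent.H442

/-- Let `P` be a product of cyclotomic polynomials with `N = deg P ≥ 3`, and let `p, r ≥ 1` and
`r p < n`. For every nonzero polynomial `H` in the `n + p` coefficients of a pair of monic
polynomials of degrees `n` and `p` there are monic polynomials `A`, `D` in `ℤ[x]` of degrees `n`
and `p`, which are not a zero of `H`, such that the polynomial `D(x) P(z) - A(x) z` is irreducible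
in `ℂ[x, z]` and for every fraction field `L` of the domain `ℚ[x, z]/(D(x) P(z) - A(x) z)` there
are `r` classes in `K_2(L) ⊗ ℚ`, unramified at all discrete valuations of `L`, and `r` loops in the
spectrum of `L` such that the determinant of the regulators of the classes along the loops is
different from zero. -/
theorem result {s : ℕ} (c : Fin s → ℕ) (hc : ∀ i, 0 < c i) (P : ℤ[X])
    (hP : P = ∏ i, cyclotomic (c i) ℤ) (hN : 3 ≤ P.natDegree) (n p r : ℕ) (hp : 1 ≤ p)
    (hr : 1 ≤ r) (hrp : r * p < n) (H : MvPolynomial (Fin n ⊕ Fin p) ℚ) (hH : H ≠ 0) :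
    ∃ A D : ℤ[X], A.Monic ∧ A.natDegree = n ∧ D.Monic ∧ D.natDegree = p ∧
      MvPolynomial.eval (Sum.elim (fun i : Fin n => (A.coeff i : ℚ))
        (fun l : Fin p => (D.coeff l : ℚ))) H ≠ 0 ∧
      Irreducible (C (D.map (Int.castRingHom ℂ)) * P.map (Int.castRingHom ℂ[X]) -
        C (A.map (Int.castRingHom ℂ)) * X : ℂ[X][X]) ∧
      ∃ G : ℚ[X][X], G = C (D.map (Int.castRingHom ℚ)) * P.map (Int.castRingHom ℚ[X]) -
        C (A.map (Int.castRingHom ℚ)) * X ∧ IsDomain (AdjoinRoot G) ∧
        ∀ (L : Type) [Field L] [Algebra (AdjoinRoot G) L] [IsFractionRing (AdjoinRoot G) L],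
          ∃ w : Fin r → KQ L 2, (∀ k, w k ∈ Unramified L 2) ∧
            ∃ Γ : Fin r → Torus L 1, (Matrix.of fun i k => (Γ i).reg (w k)).det ≠ 0 := by
  obtain ⟨g, rfl⟩ : ∃ g, n = g + 1 := ⟨n - 1, by omega⟩
  have hPc : P = cycP c := hP
  have hPm : P.Monic := by rw [hPc]; exact cycP_monic c
  have hP0 : P.coeff 0 = 1 ∨ P.coeff 0 = -1 := by rw [hPc]; exact cycP_coeff_zero c hc
  have hpg : p ≤ g := (Nat.le_mul_of_pos_left p hr).trans (by omega)
  obtain ⟨Δ, hΔ0, hΔ⟩ := exists_discAD (g := g) (p := p) hpg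
  have h0 : H * Δ ≠ 0 := mul_ne_zero hH hΔ0
  have hV : ¬ Van3 r (g - r * p) (H * Δ) := fun h => h0 (dens3 hp (by omega) h)
  unfold Van3 at hV
  push Not at hV
  obtain ⟨β, hβ, hpr, lam, hV⟩ := hV
  have hMm : (∏ i, (X - C (lam i)) : ℤ[X]).Monic := monic_prod_of_monic _ _ fun _ _ =>
    monic_X_sub_C _
  have hMd : (∏ i, (X - C (lam i)) : ℤ[X]).natDegree = g - r * p := by
    rw [natDegree_prod_of_monic _ _ fun _ _ => monic_X_sub_C _]
    simp only [natDegree_X_sub_C, Finset.sum_const, Finset.card_univ, Fintype.card_fin,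
      smul_eq_mul, mul_one]
  obtain ⟨J, hJ⟩ := spec5 hc (by rw [← hPc]; exact hN) hp hβ (fun l => (hpr l).two_le) hMm r
  obtain ⟨j, hj, hjJ, ν, hne⟩ := hV J
  have h1 := hJ j hj hjJ _ _ rfl rfl
  -- the polynomials before the translation
  have hAm : (X * (∏ k, Rz β (j k)) * ∏ i, (X - C (lam i)) : ℤ[X]).Monic :=
    (monic_X.mul (monic_prod_of_monic _ _ fun k _ => Rz_monic β (j k))).mul hMm
  have hAd : (X * (∏ k, Rz β (j k)) * ∏ i, (X - C (lam i)) : ℤ[X]).natDegree = g + 1 := by
    rw [(monic_X.mul (monic_prod_of_monic _ _ fun k _ => Rz_monic β (j k))).natDegree_mul hMm,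
      monic_X.natDegree_mul (monic_prod_of_monic _ _ fun k _ => Rz_monic β (j k)), hMd,
      natDegree_X, natDegree_prod_of_monic _ _ fun k _ => Rz_monic β (j k)]
    simp only [Rz_natDegree, Finset.sum_const, Finset.card_univ, Fintype.card_fin, smul_eq_mul]
    omega
  have hAX : X ∣ (X * (∏ k, Rz β (j k)) * ∏ i, (X - C (lam i)) : ℤ[X]) :=
    ⟨(∏ k, Rz β (j k)) * ∏ i, (X - C (lam i)), mul_assoc _ _ _⟩
  have hDm := Dz_monic β
  have hDd := Dz_natDegree β
  have hAF : AF (fun k => Rz β (j k)) lam ν =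
      (X * (∏ k, Rz β (j k)) * ∏ i, (X - C (lam i))).comp (X + C ν) := rfl
  rw [hAF] at hne
  generalize (X * (∏ k, Rz β (j k)) * ∏ i, (X - C (lam i)) : ℤ[X]) = A at *
  have hX1 : (X + C ν : ℤ[X]).natDegree = 1 := natDegree_X_add_C ν
  have hA1 : (A.comp (X + C ν)).Monic := hAm.comp (monic_X_add_C ν) (by rw [hX1]; norm_num)
  have hD1 : ((Dz β).comp (X + C ν)).Monic := hDm.comp (monic_X_add_C ν) (by rw [hX1]; norm_num)
  have hA2 : (A.comp (X + C ν)).natDegree = g + 1 := by rw [natDegree_comp, hX1, mul_one, hAd]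
  have hD2 : ((Dz β).comp (X + C ν)).natDegree = p := by rw [natDegree_comp, hX1, mul_one, hDd]
  have hne1 := left_ne_zero_of_mul (by rw [← map_mul]; exact hne :
    MvPolynomial.aeval (Sum.elim (fun i : Fin (g + 1) => ((A.comp (X + C ν)).coeff i : ℚ))
      (fun l : Fin p => (((Dz β).comp (X + C ν)).coeff l : ℚ))) H * MvPolynomial.aeval (Sum.elim
        (fun i : Fin (g + 1) => ((A.comp (X + C ν)).coeff i : ℚ))
        (fun l : Fin p => (((Dz β).comp (X + C ν)).coeff l : ℚ))) Δ ≠ 0)
  have hne2 := right_ne_zero_of_mul (by rw [← map_mul]; exact hne :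
    MvPolynomial.aeval (Sum.elim (fun i : Fin (g + 1) => ((A.comp (X + C ν)).coeff i : ℚ))
      (fun l : Fin p => (((Dz β).comp (X + C ν)).coeff l : ℚ))) H * MvPolynomial.aeval (Sum.elim
        (fun i : Fin (g + 1) => ((A.comp (X + C ν)).coeff i : ℚ))
        (fun l : Fin p => (((Dz β).comp (X + C ν)).coeff l : ℚ))) Δ ≠ 0)
  -- coprimality
  have hsq : Squarefree ((A.comp (X + C ν)).map (Int.castRingHom ℚ) *
      ((A.comp (X + C ν)).map (Int.castRingHom ℚ) +
        4 * ((Dz β).comp (X + C ν)).map (Int.castRingHom ℚ))) := by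
    refine hΔ _ _ (hA1.map _) (by rw [hA1.natDegree_map, hA2]) (hD1.map _)
      (by rw [hD1.natDegree_map, hD2]) ?_
    simp only [coeff_map, eq_intCast]
    exact hne2
  have hcop : IsCoprime ((A.comp (X + C ν)).map (Int.castRingHom ℚ))
      (((Dz β).comp (X + C ν)).map (Int.castRingHom ℚ)) := by
    rw [← isRelPrime_iff_isCoprime]
    intro d hd1 hd2
    exact hsq d (mul_dvd_mul hd1 (dvd_add hd1 (hd2.mul_left _)))
  have hcopC : IsCoprime ((A.comp (X + C ν)).map (Int.castRingHom ℂ))
      (((Dz β).comp (X + C ν)).map (Int.castRingHom ℂ)) := by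
    have h2 := hcop.map (mapRingHom (algebraMap ℚ ℂ))
    rw [coe_mapRingHom, map_map, map_map] at h2
    have h3 : (algebraMap ℚ ℂ).comp (Int.castRingHom ℚ) = Int.castRingHom ℂ :=
      Subsingleton.elim _ _
    rw [h3] at h2
    exact h2
  have hirrQ := irr_spec (algebraMap ℚ ℂ) hPm hN hP0 hp hβ (fun l => (hpr l).two_le) hAm hAX ν
    hcop
  have hirrC := irr_spec (RingHom.id ℂ) hPm hN hP0 hp hβ (fun l => (hpr l).two_le) hAm hAX ν
    hcopC
  have hirr0 : Irreducible (GG (cycP c) (A.map (algebraMap ℤ ℚ))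
      ((Dz β).map (algebraMap ℤ ℚ))) := by
    have e1 : (X : ℤ[X]) + C 0 = X := by rw [C_0, add_zero]
    have hcop0 : IsCoprime ((A.comp (X + C 0)).map (Int.castRingHom ℚ))
        (((Dz β).comp (X + C 0)).map (Int.castRingHom ℚ)) := by
      have h2 := hcop.map (mapRingHom (RingHom.id ℚ))
      have h3 := hcop.map (compRingHom (X - C (ν : ℚ)))
      rw [coe_compRingHom_apply, coe_compRingHom_apply, Polynomial.map_comp, Polynomial.map_comp,
        comp_assoc, comp_assoc] at h3
      have h4 : ((X + C ν : ℤ[X]).map (Int.castRingHom ℚ)).comp (X - C (ν : ℚ)) = X := by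
        simp
      rw [h4, comp_X, comp_X] at h3
      rw [e1, comp_X, comp_X]
      exact h3
    have h5 := irr_spec (algebraMap ℚ ℂ) hPm hN hP0 hp hβ (fun l => (hpr l).two_le) hAm hAX 0
      hcop0
    rw [e1, comp_X, comp_X, hPc] at h5
    exact h5
  have h2 := h1 hirr0
  have hcompA : ((A.comp (X + C ν)).map (Int.castRingHom ℚ)) =
      (A.map (algebraMap ℤ ℚ)).comp (X + C (ν : ℚ)) := by
    rw [Polynomial.map_comp]
    simp
  have hcompD : (((Dz β).comp (X + C ν)).map (Int.castRingHom ℚ)) =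
      ((Dz β).map (algebraMap ℤ ℚ)).comp (X + C (ν : ℚ)) := by
    rw [Polynomial.map_comp]
    simp
  refine ⟨A.comp (X + C ν), (Dz β).comp (X + C ν), hA1, hA2, hD1, hD2, ?_, hirrC, _, rfl,
    isDomain_GRing hirrQ, ?_⟩
  · rw [MvPolynomial.aeval_def, MvPolynomial.eval₂_eq_eval_map] at hne1
    simpa using hne1
  · rw [hcompA, hcompD, hPc]
    intro L _ i1 i2
    have i1' : Algebra (GRing (cycP c) ((A.map (algebraMap ℤ ℚ)).comp (X + C (ν : ℚ)))
      (((Dz β).map (algebraMap ℤ ℚ)).comp (X + C (ν : ℚ)))) L := i1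
    have i2' : @IsFractionRing (GRing (cycP c) ((A.map (algebraMap ℤ ℚ)).comp (X + C (ν : ℚ)))
      (((Dz β).map (algebraMap ℤ ℚ)).comp (X + C (ν : ℚ)))) _ L _ i1 := i2
    obtain ⟨a1, a2⟩ := @exists_alg ℚ _ (cycP c) (A.map (algebraMap ℤ ℚ))
      ((Dz β).map (algebraMap ℤ ℚ)) (ν : ℚ) L _ i1 i2'
    exact h2 L

end Pool.Agent.Results.MP_743d1e_nt.EveryGonality
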