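import Pool.Agent.H839.PZ.One

/-!
# `K_2` of one curve of genus one over `ℚ` and finitely many graph hypersurfaces

Let `S` be **one** smooth projective curve of genus one over `ℚ`. The conjecture of Beilinson and Bloch for
`S` (parts (i), (ii), (iii), up to torsion) is that the regulator of `K_2(S_ℤ) ⊗ ℚ` is injective with image
the rational line of the classes whose period is a rational multiple of `c_1 = L'(S, 0)`. As this group is
known not to be zero (Bloch, Beilinson and the modularity of elliptic curves over `ℚ`), this is the case if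
and only if the periods of all nonzero elements of `K_2(S_ℤ) ⊗ ℚ` are nonzero rational multiples of
`L'(S, 0)` (`PeriodStatement`).

For a smooth projective scheme `Y` over `ℚ` let `M^m(Y) = H_M^{2m-2}(Y, ℚ(m))_ℤ` (integral part, Scholl),
`D^m(Y) = H_𝒟^{2m-2}(Y_ℝ, ℝ(m))`, and `r : M^m(Y) → D^m(Y)` the regulator; here
`M^2(S) = K_2(S_ℤ) ⊗ ℚ` modulo the part which is zero in `K_2(S) ⊗ ℚ`, and `D^2(S) = H^1(S(ℂ), ℝ(1))^+`. The
cycles `c` on `S × Y` of the codimension `m - 1` operate by `c_*` on both. Let `V ⊆ D^2(S)` be the rational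
line of the classes whose period is a rational multiple of `L'(S, 0)`, and `A^m(Y) ⊆ D^m(Y)` the rational
subspace generated by the images `c_* V`, and `B^m(Y) = B_1^m(Y) ⊕ B_2^m(Y)`, where `B_1^m(Y) ⊆ D^m(Y)` is
generated by `A^m(Y)` and the `c_* r(x)`, `x` in `M^2(S)`, and `B_2^m(Y) ⊆ M^m(Y)` by the `c_* x`, `x` in
`M^2(S)` with `r(x) = 0`. They are additive functors of the Chow motive of `Y`, and `A^m(Y) → B^m(Y)` is
bijective if and only if `LineStable D m Y` holds. For a separated scheme `Z` of finite type over `ℚ` with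
the weight complex `W(Z)` (Gillet, Soulé) let `A^{m,i}(Z) = H^i(A^m(W(Z)))`, `B^{m,i}(Z) = H^i(B^m(W(Z)))`;
`BijAll C Z` says that the maps `A^{m,i}(Z) → B^{m,i}(Z)` are isomorphisms for all `m` and `i`. (These data
are the ones of the library, `Q68.OV.Line`.)

For a finite graph `G` let `Y_G` be the complement of its graph hypersurface, that is the open subscheme
of the affine space over `ℚ` of the edge weights where the Kirchhoff polynomial (the weighted number of the
spanning trees, the determinant of the reduced Laplace matrix) is not zero.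

**Theorem.** For each `S` there is a finite list `L` of finite simple graphs of maximal degree at most
three, which depends only on `S`, such that the conjecture of Beilinson and Bloch is true for `S` if and
only if the maps `A^{m,i}(Y_G) → B^{m,i}(Y_G)` are isomorphisms for all `m` and `i` and the finitely many
graphs `G` in `L`. If it is true, they are isomorphisms for all finite graphs of maximal degree at most
three.
-/

set_option autoImplicit false

open CategoryTheory CategoryTheory.Limits AlgebraicGeometry Pool.Agent.Y116.UV Pool.Agent.Z125.UN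
  Pool.Agent.Q193.LT Pool.Agent.Q49.WU Pool.Agent.Q68.OV Pool.Agent.H839.PZ

universe w u

namespace Pool.Agent.Results.MP_743d1e_nt.FinitelyManyGraphs

/-- A curve `S` of genus one over `ℚ`: `M m Y` and `D m Y` are `H_M^{2m-2}(Y, ℚ(m))_ℤ` and
`H_𝒟^{2m-2}(Y_ℝ, ℝ(m))`, `Cyc m Y` is the type of the cycles of codimension `m - 1` on `S × Y`, `T` and `P`
are `K_2(S_ℤ) ⊗ ℚ` (its image in `K_2(S) ⊗ ℚ`) and `H^1(S(ℂ), ℝ(1))^+`, `per` is the isomorphism with `ℝ` given
by a generator of `H^1(S(ℂ), ℚ(1))^+`, and `lval` is `c_1 = L'(S, 0)`, which is not zero. -/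
abbrev GenusOneData (S : Sch ℚ) := LineData.{w, u} ℚ S 2

/-- The conjecture for `S`, in two parts: the image of the regulator is the rational line `ℚ · L'(S, 0)`
((i) and (ii)), and the regulator is injective ((iii)). -/
def BeilinsonBloch {S : Sch ℚ} (D : GenusOneData.{w, u} S) : Prop :=
  D.T.map (D.reg 2 S) = D.V ∧ ∀ x ∈ D.T, D.reg 2 S x = 0 → x = 0

/-- The statement on periods and the conjecture; `T` is known to have an element whose regulator is not
zero. -/
theorem beilinsonBloch_iff {S : Sch ℚ} {D : GenusOneData.{w, u} S} (hD : IsLine D)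
    (hT : ∃ x ∈ D.T, D.reg 2 S x ≠ 0) : BeilinsonBloch D ↔ PeriodStatement D := by
  constructor
  · rintro ⟨h1, h2⟩ x hx hx0 hP
    have h3 : D.reg 2 S x ∈ D.V := by
      rw [← h1]
      exact ⟨x, hx, rfl⟩
    obtain ⟨q, hq⟩ := (mem_V hP).mp h3
    refine ⟨q, ?_, hq⟩
    rintro rfl
    apply hx0
    apply h2 x hx
    have h4 : (⟨D.reg 2 S x, hP⟩ : D.P) = 0 := hD.per_inj (by rw [hq, map_zero]; simp)
    exact congrArg Subtype.val h4
  · intro h
    have hinj : ∀ x ∈ D.T, D.reg 2 S x = 0 → x = 0 := by
      intro x hx h0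
      by_contra hx0
      obtain ⟨q, hq0, hq⟩ := h x hx hx0 (hD.reg_mem x hx)
      have h5 : (⟨D.reg 2 S x, hD.reg_mem x hx⟩ : D.P) = 0 := Subtype.ext h0
      rw [h5, map_zero] at hq
      have h6 := hD.lval_ne
      have h7 : (q : ℝ) ≠ 0 := by exact_mod_cast hq0
      exact (mul_ne_zero h7 h6) hq.symm
    refine ⟨le_antisymm ?_ ?_, hinj⟩
    · rintro _ ⟨x, hx, rfl⟩
      by_cases hx0 : x = 0
      · rw [hx0, map_zero]
        exact Submodule.zero_mem _
      · obtain ⟨q, _, hq⟩ := h x hx hx0 (hD.reg_mem x hx)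
        exact (mem_V (hD.reg_mem x hx)).mpr ⟨q, hq⟩
    · intro y hy
      obtain ⟨x, hx, hrx⟩ := hT
      have hx0 : x ≠ 0 := by
        rintro rfl
        exact hrx (map_zero _)
      obtain ⟨q, hq0, hq⟩ := h x hx hx0 (hD.reg_mem x hx)
      have hyP : y ∈ D.P := by
        obtain ⟨z, _, rfl⟩ := hy
        exact z.2
      obtain ⟨s, hs⟩ := (mem_V hyP).mp hy
      refine ⟨(s / q) • x, D.T.smul_mem _ hx, ?_⟩
      have h8 : ((s / q) • (⟨D.reg 2 S x, hD.reg_mem x hx⟩ : D.P)) = ⟨y, hyP⟩ := by
        apply hD.per_inj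
        rw [map_smul, hq, hs, Rat.smul_def]
        have h7 : (q : ℝ) ≠ 0 := by exact_mod_cast hq0
        push_cast
        field_simp
      rw [map_smul]
      exact congrArg Subtype.val h8

/-- **`K_2` of one curve of genus one and finitely many graph hypersurfaces.** See the explanations
above; `zero` is the case of dimension zero, where all groups which occur are zero (Borel). -/
theorem result {S : Sch ℚ} (hS : SmoothProj S) :
    ∃ L : List Gph, ∀ (D : GenusOneData.{w, u} S) (C : PairData.{w} ℚ (ℤ × ℤ) ℚ), IsLine D →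
      (nonzero : ∃ x ∈ D.T, D.reg 2 S x ≠ 0) →
      IsWeightPair C → WeightGen C →
      (∀ Y, SmoothProj Y → ∀ m, (BijAt C Prod.fst m Y ↔ LineStable D m Y)) →
      (zero : ∀ Y : Sch ℚ, SmoothProj Y → topologicalKrullDim Y.left ≤ (0 : ℕ) → BijAll C Y) →
      (BeilinsonBloch D ↔ ∀ g ∈ L, BijAll C (g.co ℚ)) ∧
      (BeilinsonBloch D → ∀ g : Gph, BijAll C (g.co ℚ)) := by
  obtain ⟨N, G, h⟩ := line_kirch.{w, u} hS 2
  refine ⟨G, fun D C hD hT hC hg bij zero => ?_⟩
  obtain ⟨_, h2, h3⟩ := h D C hD hC hg bij (point_of_zero hg zero)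
  rw [beilinsonBloch_iff hD hT]
  exact ⟨h2 frac_rat, fun hp => (h3 hp).2⟩

end Pool.Agent.Results.MP_743d1e_nt.FinitelyManyGraphs
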