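import Pool.Agent.H367.OS.OOri
import Mathlib

/-!
# Regulators on `K_2` of curves and the abelian varieties of one sequence of cubics

A relation `r` of size `m` is one of the equations `x_i x_j = x_l`, `x_i + x_j = x_l`, `x_i = 1` with
`i, j, l < m`; the relations are numbered, the number of `r` is `ν(r)` (`relNum`). Let `G_m` be the
following polynomial with integral coefficients (`univG ℤ m`). There are variables `x_i` and `z_ij` for
`i, j < m`, a variable `c_r` for every relation `r`, and variables `y_{r,l}` for all relations `r` and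
`l < (m + 1) 2 ^ ν(r)`. The equations (`eqnG`) are

  `z_ij - x_i x_j`,  `c_r ^ 2 - c_r`,  `c_r ρ_r`,  `(1 - c_r) y_{r,l}`,

where `ρ_r` is the linear polynomial `z_ij - x_l`, `x_i + x_j - x_l` or `x_i - 1` of the relation.
`G_m` is the sum of the equations multiplied by further variables `t_e`, one for each equation. It has
degree three. Let `C_m` be the affine cubic hypersurface `G_m = 1` (`cubG R m` over the ring `R`); it is
smooth over the integers.

Let `M` be the category of motives over `ℚ` in the sense of André, a semisimple abelian category with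
Tate twists `N ↦ N(a)`. For a separated scheme `X` of finite type over `ℚ` let `D.G w j X = Gr^W_w
H^j_c(X)` be the part of weight `w` of the cohomology with compact supports, a motive over `ℚ`; for
smooth projective `Y` it is `h^j(Y)` if `j = w`, and zero otherwise.

The type `Ab` consists of the abelian varieties over `ℚ`, and `h1 B = h^1(B)`. A direct factor `h1 C`
of `h1 B` is the same as an abelian variety `C` which is, up to isogeny, a direct factor of `B`. Every
direct factor of `h^1(Y)` is `h1 B` for some `B` (`AbelianVarieties`).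

For an abelian variety `B` over `ℚ` let `R.reg B : R.K B → R.H B` be the regulator from `H_M^2(h^1(B),
ℚ(2))_ℤ ⊗ ℝ` (integral part) to `H^1(B(ℂ), ℝ(1))^+ = H_𝒟^2(h^1(B)_ℝ, ℝ(2))`. The Chow motive `h^1(B)`
is determined by the isogeny class of `B`, so for a direct factor `C` of `B` up to isogeny the
regulator for `C` is a retract of the one for `B` (hypothesis `retract`).

The type `Cu` consists of the smooth projective curves over `ℚ`, and `J X` is the Jacobian variety. As
`K_2(X_ℤ) ⊗ ℚ = H_M^2(h^1(X), ℚ(2))_ℤ` (the motives `h^0` and `h^2` do not contribute), the part (i)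
of the question for `X`, together with the part (iii) up to torsion (`Ker(r)` is a torsion group),
says that `R.reg (J X)` is bijective: `Iso R (J X)`. Every abelian variety over `ℚ` is a quotient of a
Jacobian variety (hypothesis `jacobian`).

**Theorem.** Let `E_m` be the number of the equations, and for `N ∈ ℕ` let `e = (m + 1) N + E_m - 1`
(`esh m N`). Let `single D m N` be
the motive `Gr^W_{1+2e} H^{2+2e}_c(C_m)(e)`.

(1) For all `m ≥ 1` and `N` there is an abelian variety `B_{m,N}` over `ℚ`, unique up to isogeny, with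
`h^1(B_{m,N}) = single D m N`.

(2) The parts (i) and (iii), up to torsion, are true for all curves over `ℚ` if and only if, for
infinitely many `m`, the regulators for the abelian varieties `B_{m,N}` are isomorphisms, for all `N`.

(3) For every curve `X` over `ℚ` and all large `m` there is an `N` such that the Jacobian of `X` is,
up to isogeny, a direct factor of `B_{m,N}`; if the regulator for `B_{m,N}` is an isomorphism, then
(i) and (iii), up to torsion, are true for `X`.

(4) If (i) or (iii), up to torsion, is false for some curve, then for all large `m` there is an `N`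
such that the regulator for `B_{m,N}` is not an isomorphism.

(5) For every curve `X` over `ℚ` and all large `m` there is a number `e` such that `h^1(X)` is the
single motive `Gr^W_{1+2e} H^{2+2e}_c(C_m)(e)`; so for a single curve all parts of the question (up to
torsion) are statements on one piece of the cohomology of `C_m`.

(6) `G_m` has integral coefficients and degree at most three, and `C_m` is smooth over all rings.

The hypotheses on the motives are standard (`IsMot`): exact sequences, affine bundles, disjoint unions,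
the cohomology of affine spaces, the weights of `H^j_c(X)` are between `0` and `2 dim X`, monomorphisms
split, `Gr^W_w H^j_c(X)` is a direct factor of `h^w(Y)` for some smooth projective `Y` (it is a
subquotient, by the weight spectral sequence), and every smooth projective scheme has an affine bundle
whose total space is affine (Jouanolou).

Idea of the proof. The projection of `C_m` to the affine space with the coordinates `x, z, c, y` is an
affine bundle over the complement of the zero set `W_m` of the equations. The scheme `W_m` is the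
disjoint union, over all sets `s` of relations (`c_r = 1` for `r ∈ s` and `c_r = 0` for the others), of
the products `X_s × 𝔸 ^ ((m + 1) N(s))`, where `X_s` is the affine scheme defined by the relations in
`s` and `N(s) = ∑_{r ∈ s} 2 ^ ν(r)`. The numbers `N(s)` are different, and the dimension of `X_s` is at
most `m`. So the invariant of `W_m` with the index `q + (m + 1) N(s)`, `0 ≤ q ≤ m`, is the invariant of
`X_s` with the index `q`; the other components do not contribute. Every affine scheme of finite type
over a prime field is an `X_s`, for all large `m`.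

The universal system of relations is the one of helper854 (`Pool.Agent.H854.SQ`).
-/

set_option autoImplicit false

open CategoryTheory CategoryTheory.Limits AlgebraicGeometry Pool.Agent.Y116.UV Pool.Agent.Z125.UN
  Pool.Agent.Q193.LT Pool.Agent.H854.SQ Pool.Agent.H367.OS

universe w w' v u



namespace Pool.Agent.Results.MP_743d1e_nt.PiecesOfOneSequence

/-- The regulators of the abelian varieties. -/
structure Regulators (Ab : Type w) where
  /-- the integral part of motivic cohomology, tensored with `ℝ` -/
  K : Ab → ModuleCat.{w'} ℝ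
  /-- Deligne cohomology -/
  H : Ab → ModuleCat.{w'} ℝ
  /-- the regulator -/
  reg : ∀ B : Ab, K B ⟶ H B

/-- The regulator for `B` is an isomorphism. -/
def Iso {Ab : Type w} (R : Regulators.{w, w'} Ab) (B : Ab) : Prop := IsIso (R.reg B)

/-- The facts on regulators and curves, see the explanations above. -/
structure Describes {A : Type u} [Category.{v} A] {Ab : Type w} (D : Pieces ℚ A) (h1 : Ab → A)
    (R : Regulators.{w, w'} Ab) {Cu : Type w} (J : Cu → Ab) : Prop where
  retract : ∀ B C : Ab, Factor (h1 C) (h1 B) → ∃ (i : R.K C ⟶ R.K B) (p : R.K B ⟶ R.K C)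
    (i' : R.H C ⟶ R.H B) (p' : R.H B ⟶ R.H C), i ≫ p = 𝟙 _ ∧ i' ≫ p' = 𝟙 _ ∧
      i ≫ R.reg B = R.reg C ≫ i' ∧ p ≫ R.reg C = R.reg B ≫ p'
  jacobian : ∀ B : Ab, ∃ X : Cu, Factor (h1 B) (h1 (J X))
  curve : ∀ X : Cu, ∃ Y : Sch ℚ, SmoothProj Y ∧ Nonempty (h1 (J X) ≅ D.G 1 1 Y)

/-- The single motive `Gr^W_{1+2e} H^{2+2e}_c(e)` of the hypersurface `G_m = 1`. -/
noncomputable def single {A : Type u} [Category.{v} A] (D : Pieces ℚ A) (m N : ℕ) : A :=
  (D.tw (esh m N)).obj (D.G (1 + 2 * esh m N) (1 + 2 * esh m N + 1) (cubG ℚ m))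

/-- Retracts of isomorphisms are isomorphisms. -/
lemma isIso_retract {E : Type u} [Category.{v} E] {K K' H H' : E} {r : K ⟶ H} {r' : K' ⟶ H'}
    {i : K' ⟶ K} {p : K ⟶ K'} {i' : H' ⟶ H} {p' : H ⟶ H'} (h1 : i ≫ p = 𝟙 _) (h2 : i' ≫ p' = 𝟙 _)
    (h3 : i ≫ r = r' ≫ i') (h4 : p ≫ r' = r ≫ p') (h : IsIso r) : IsIso r' := by
  refine ⟨i' ≫ inv r ≫ p, ?_, ?_⟩
  · rw [← Category.assoc, ← h3, Category.assoc, IsIso.hom_inv_id_assoc, h1]
  · rw [Category.assoc, Category.assoc, h4, IsIso.inv_hom_id_assoc, h2]

/-- **Regulators on `K_2` of curves and the abelian varieties of one sequence of cubic hypersurfaces over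
the integers.** See the explanations above. -/
theorem result {A : Type u} [Category.{v} A] [Abelian A] {D : Pieces ℚ A} (h : IsMot D)
    {Ab : Type w} {h1 : Ab → A} (ha : AbelianVarieties D h1) {R : Regulators.{w, w'} Ab}
    {Cu : Type w} {J : Cu → Ab} (hR : Describes D h1 R J) :
    (∀ m, 1 ≤ m → ∀ N : ℕ, ∃ B : Ab, Nonempty (h1 B ≅ single D m N)) ∧
    ((∀ X : Cu, Iso R (J X)) ↔ ∃ᶠ m in Filter.atTop, ∀ (N : ℕ) (B : Ab),
      Nonempty (h1 B ≅ single D m N) → Iso R B) ∧
    (∀ X : Cu, ∀ᶠ m in Filter.atTop, ∃ N : ℕ, Factor (h1 (J X)) (single D m N) ∧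
      ∀ B : Ab, Nonempty (h1 B ≅ single D m N) → Iso R B → Iso R (J X)) ∧
    ((∃ X : Cu, ¬ Iso R (J X)) → ∀ᶠ m in Filter.atTop, ∃ (N : ℕ) (B : Ab),
      Nonempty (h1 B ≅ single D m N) ∧ ¬ Iso R B) ∧
    (∀ X : Cu, ∀ᶠ m in Filter.atTop, ∃ e : ℕ, Nonempty (h1 (J X) ≅
      (D.tw e).obj (D.G (1 + 2 * e) (1 + 2 * e + 1) (cubG ℚ m)))) ∧
    ∀ m : ℕ, (univG ℤ m).totalDegree ≤ 3 ∧
      ∀ (R : Type) [CommRing R], MvPolynomial.map (Int.castRingHom R) (univG ℤ m) = univG R m ∧
        Smooth (cubG R m).hom := by
  obtain ⟨k1, k2⟩ := abelian_occurs isPrimeField_rat h ha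
  have hf : ∀ B C : Ab, Factor (h1 C) (h1 B) → Iso R B → Iso R C := by
    intro B C hBC hB
    obtain ⟨i, p, i', p', e1, e2, e3, e4⟩ := hR.retract B C hBC
    exact isIso_retract e1 e2 e3 e4 hB
  have h3 : ∀ X : Cu, ∀ᶠ m in Filter.atTop, ∃ N : ℕ, Factor (h1 (J X)) (single D m N) ∧
      ∀ B : Ab, Nonempty (h1 B ≅ single D m N) → Iso R B → Iso R (J X) := by
    intro X
    filter_upwards [k2 (J X)] with m hm
    obtain ⟨N, hN⟩ := hm
    exact ⟨N, hN, fun B ⟨e⟩ hB => hf B (J X) (hN.trans (Factor.of_iso e.symm)) hB⟩
  refine ⟨k1, ⟨fun g => Filter.Frequently.of_forall fun m N B _ => ?_, fun g X => ?_⟩, h3, ?_, ?_,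
    cubG_facts⟩
  · obtain ⟨X, hX⟩ := hR.jacobian B
    exact hf _ _ hX (g X)
  · obtain ⟨m, ⟨⟨hm1, N, -, hm2⟩, hm3⟩⟩ := ((g.and_eventually (h3 X)).and_eventually
      (Filter.eventually_ge_atTop 1)).exists
    obtain ⟨B, hB⟩ := k1 m hm3 N
    exact hm2 B hB (hm1 N B hB)
  · rintro ⟨X, hX⟩
    filter_upwards [h3 X, Filter.eventually_ge_atTop 1] with m hm hm1
    obtain ⟨N, -, hN⟩ := hm
    obtain ⟨B, hB⟩ := k1 m hm1 N
    exact ⟨N, B, hB, fun g => hX (hN B hB g)⟩
  · intro X
    obtain ⟨Y, hY, ⟨f⟩⟩ := hR.curve X
    obtain ⟨m₀, hm⟩ := pieces_proj isPrimeField_rat h.pieces h.device Y hY 1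
    filter_upwards [Filter.eventually_ge_atTop m₀] with m hm1
    obtain ⟨e, he⟩ := hm m hm1
    obtain ⟨g⟩ := h.pieces.back (he 1 1 zero_le_one le_rfl) 0
    obtain ⟨g'⟩ := h.pieces.tw_nil (D.G 1 1 Y)
    rw [zero_add] at g
    exact ⟨e, ⟨f ≪≫ g'.symm ≪≫ g.symm⟩⟩

end Pool.Agent.Results.MP_743d1e_nt.PiecesOfOneSequence
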